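import Pool.Agent.W295.PR.Stm

/-! PR-RFW: the weighted filtration. -/

set_option autoImplicit false

namespace Pool.Agent.W486.PR.RFW

open Pool.Agent.W295.PR

theorem mem_iff (D j : ℕ) (q : RR D) : q ∈ RFw D j ↔ ∀ l : Fin D, D < (l : ℕ) + j → q l = 0 :=
  Iff.rfl

theorem main : S_RFW := by
  intro D
  refine ⟨?_, ?_, ?_, ?_⟩
  · rw [eq_top_iff]
    intro q _
    rw [mem_iff]
    intro l hl
    have := l.2
    omega
  · rw [eq_bot_iff]
    intro q hq
    rw [mem_iff] at hq
    rw [AddSubgroup.mem_bot]
    funext l
    exact hq l (by omega)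
  · intro j q hq
    rw [mem_iff] at *
    intro l hl
    exact hq l (by omega)
  · intro e j q hj hq
    rw [mem_iff] at *
    intro i hi
    have : tau D e q i = q i := by
      unfold tau
      rw [Finset.sum_eq_single i]
      · simp
      · intro l _ hl
        rcases lt_trichotomy (l : ℕ) (i : ℕ) with h | h | h
        · rw [Nat.choose_eq_zero_of_lt (by omega)]
          simp
        · exact absurd (Fin.ext h) hl
        · rw [hq l (by omega)]
          simp
      · intro h
        exact absurd (Finset.mem_univ _) h
    rw [Pi.sub_apply, this, sub_self]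

end Pool.Agent.W486.PR.RFW
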